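import Mathlib

/-!
# A determinant estimate (power series form of the Schwarz lemma for interpolation determinants)
-/

set_option autoImplicit false

open Finset

namespace Pool.Agent.Lib.TwoLogs

lemma sum_range_card_le_sum (s : Finset ℕ) : ∑ n ∈ range s.card, n ≤ ∑ n ∈ s, n := by
  induction s using Finset.induction_on_max with
  | empty => simp
  | insert a s ha ih =>
    have hn : a ∉ s := fun h => lt_irrefl _ (ha a h)
    rw [Finset.card_insert_of_notMem hn, Finset.sum_range_succ, Finset.sum_insert hn, add_comm a]
    have hc : s.card ≤ a := by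
      have : s ⊆ range a := fun x hx => mem_range.2 (ha x hx)
      simpa using card_le_card this
    omega

/-- Natural numbers `f i`, `i ∈ s`, pairwise distinct: their sum is at least `0+1+...+(#s-1)`. -/
lemma sum_ge_of_injOn {ι : Type*} (s : Finset ι) (f : ι → ℕ) (hf : Set.InjOn f s) :
    ∑ n ∈ range s.card, n ≤ ∑ i ∈ s, f i := by
  classical
  have h1 : ∑ i ∈ s, f i = ∑ n ∈ s.image f, n := (Finset.sum_image (f := fun n => n) hf).symm
  rw [h1]
  have h2 : (s.image f).card = s.card := Finset.card_image_of_injOn hf
  rw [← h2]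
  exact sum_range_card_le_sum _

/-- exponent attached to a choice: analytic term `n` has exponent `n`, the error term has
exponent `N - 1`. -/
def expo {T : ℕ} (N : ℕ) : Option (Fin T) → ℕ
  | none => N - 1
  | some n => n

lemma sum_expo_ge {ι : Type*} [Fintype ι] {T : ℕ} (r : ι → Option (Fin T))
    (hr : ∀ i j, i ≠ j → r i = r j → r i = none) :
    ∑ n ∈ range (Fintype.card ι), n ≤ ∑ i, expo (Fintype.card ι) (r i) := by
  classical
  set N := Fintype.card ι with hN
  set s : Finset ι := univ.filter (fun i => r i ≠ none) with hs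
  set s' : Finset ι := univ.filter (fun i => ¬ (r i ≠ none)) with hs'
  have hsplit : ∑ i, expo N (r i) = ∑ i ∈ s, expo N (r i) + ∑ i ∈ s', expo N (r i) := by
    rw [hs, hs', Finset.sum_filter_add_sum_filter_not]
  have hle : s.card ≤ N := by rw [hN]; exact card_le_univ s
  have hcard : s'.card = N - s.card := by
    have := Finset.card_filter_add_card_filter_not (s := (univ : Finset ι)) (fun i => r i ≠ none)
    rw [Finset.card_univ, ← hs, ← hs', ← hN] at this
    omega
  have hnone : ∑ i ∈ s', expo N (r i) = (N - s.card) * (N - 1) := by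
    rw [← hcard, Finset.sum_const_nat]
    intro i hi
    simp only [hs', ne_eq, not_not, mem_filter, mem_univ, true_and] at hi
    simp [hi, expo]
  have hinj : Set.InjOn (fun i => expo N (r i)) s := by
    intro i hi j hj hij
    by_contra hne
    simp only [hs, ne_eq, coe_filter, mem_univ, true_and, Set.mem_ofPred_eq] at hi hj
    obtain ⟨a, ha⟩ := Option.ne_none_iff_exists'.1 hi
    obtain ⟨b, hb⟩ := Option.ne_none_iff_exists'.1 hj
    simp only [ha, hb, expo] at hij
    have : a = b := Fin.ext hij
    exact hi (hr i j hne (by rw [ha, hb, this]))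
  have h1 := sum_ge_of_injOn s (fun i => expo N (r i)) hinj
  have h2 : ∑ n ∈ range N, n ≤ ∑ n ∈ range s.card, n + (N - s.card) * (N - 1) := by
    obtain ⟨m, hm⟩ := Nat.exists_eq_add_of_le hle
    rw [hm, Finset.sum_range_add]
    have : ∑ x ∈ range m, (s.card + x) ≤ ∑ x ∈ range m, (s.card + m - 1) := by
      apply Finset.sum_le_sum
      intro x hx
      have := mem_range.1 hx
      omega
    simp only [sum_const, card_range, smul_eq_mul] at this
    have h3 : s.card + m - s.card = m := by omega
    rw [h3]
    omega
  rw [hsplit, hnone]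
  omega

/-- weight of a choice for column `j`. -/
noncomputable def wt {ι : Type*} {T : ℕ} (c : ℕ → ι → ℝ) (F : ι → ℝ) (ρ : ℝ) :
    Option (Fin T) → ι → ℝ
  | none, j => F j
  | some n, j => |c n j| * ρ ^ (n : ℕ)

/-- **Determinant estimate.** -/
theorem abs_det_le {ι : Type*} [Fintype ι] [DecidableEq ι] (T : ℕ) (c : ℕ → ι → ℝ)
    (x : ι → ℝ) (E : ι → ι → ℝ) (F : ι → ℝ) (ρ : ℝ) (hρ : 1 ≤ ρ) (hx : ∀ i, |x i| ≤ 1)
    (hF : ∀ j, ∑ n ∈ range T, |c n j| * ρ ^ n ≤ F j)
    (hE : ∀ i j, |E i j| * ρ ^ (Fintype.card ι - 1) ≤ F j) :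
    |Matrix.det (Matrix.of fun i j => ∑ n ∈ range T, x i ^ n * c n j + E i j)| *
        ρ ^ (∑ n ∈ range (Fintype.card ι), n) ≤
      (Fintype.card ι).factorial * 2 ^ (Fintype.card ι) * ∏ j, F j := by
  classical
  set N := Fintype.card ι with hN
  have hρ0 : 0 < ρ := by linarith
  have hF0 : ∀ j, 0 ≤ F j := fun j => le_trans
    (Finset.sum_nonneg fun n _ => mul_nonneg (abs_nonneg _) (pow_nonneg hρ0.le _)) (hF j)
  -- the rows
  let g : ι → Option (Fin T) → (ι → ℝ) := fun i t =>
    match t with
    | none => E i
    | some n => fun j => x i ^ (n : ℕ) * c n j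
  have hrow : (Matrix.of fun i j => ∑ n ∈ range T, x i ^ n * c n j + E i j) =
      (fun i => ∑ t : Option (Fin T), g i t : ι → ι → ℝ) := by
    funext i j
    rw [Matrix.of_apply, Finset.sum_apply, Fintype.sum_option, add_comm]
    simp only [g]
    rw [Finset.sum_range]
  have hexp : Matrix.det (Matrix.of fun i j => ∑ n ∈ range T, x i ^ n * c n j + E i j) =
      ∑ r : ι → Option (Fin T), Matrix.det (Matrix.of fun i => g i (r i)) := by
    rw [hrow]
    exact (Matrix.detRowAlternating (R := ℝ) (n := ι)).toMultilinearMap.map_sum g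
  rw [hexp]
  -- bound each term
  have hterm : ∀ r : ι → Option (Fin T),
      |Matrix.det (Matrix.of fun i => g i (r i))| * ρ ^ (∑ n ∈ range N, n) ≤
        ∑ σ : Equiv.Perm ι, ∏ i, wt c F ρ (r i) (σ i) := by
    intro r
    have hwt0 : ∀ t j, 0 ≤ wt c F ρ (T := T) t j := by
      intro t j
      cases t with
      | none => exact hF0 j
      | some n => exact mul_nonneg (abs_nonneg _) (pow_nonneg hρ0.le _)
    by_cases hr : ∀ i j, i ≠ j → r i = r j → r i = none
    · have hge := sum_expo_ge r hr
      rw [← hN] at hge
      have h1 : |Matrix.det (Matrix.of fun i => g i (r i))| * ρ ^ (∑ n ∈ range N, n) ≤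
          |Matrix.det (Matrix.of fun i => g i (r i))| * ρ ^ (∑ i, expo N (r i)) := by
        apply mul_le_mul_of_nonneg_left _ (abs_nonneg _)
        exact pow_le_pow_right₀ hρ hge
      refine h1.trans ?_
      rw [← Matrix.det_transpose, Matrix.det_apply]
      have h2 : |∑ σ : Equiv.Perm ι, Equiv.Perm.sign σ • ∏ i, (Matrix.transpose (Matrix.of fun i => g i (r i))) (σ i) i| ≤
          ∑ σ : Equiv.Perm ι, ∏ i, |g i (r i) (σ i)| := by
        refine (Finset.abs_sum_le_sum_abs _ _).trans (Finset.sum_le_sum fun σ _ => ?_)
        rw [← Finset.abs_prod]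
        rcases Int.units_eq_one_or (Equiv.Perm.sign σ) with h | h <;> simp [h, Matrix.transpose_apply]
      refine (mul_le_mul_of_nonneg_right h2 (pow_nonneg hρ0.le _)).trans ?_
      rw [Finset.sum_mul]
      apply Finset.sum_le_sum
      intro σ _
      rw [← Finset.prod_pow_eq_pow_sum, ← Finset.prod_mul_distrib]
      apply Finset.prod_le_prod
      · intro i _
        exact mul_nonneg (abs_nonneg _) (pow_nonneg hρ0.le _)
      · intro i _
        cases h : r i with
        | none => simpa [g, wt, expo] using hE i (σ i)
        | some n =>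
          simp only [g, wt, expo]
          rw [abs_mul, abs_pow]
          apply mul_le_mul_of_nonneg_right _ (pow_nonneg hρ0.le _)
          have : |x i| ^ (n : ℕ) ≤ 1 := pow_le_one₀ (abs_nonneg _) (hx i)
          calc |x i| ^ (n : ℕ) * |c n (σ i)| ≤ 1 * |c n (σ i)| :=
                mul_le_mul_of_nonneg_right this (abs_nonneg _)
            _ = _ := one_mul _
    · push Not at hr
      obtain ⟨i, j, hij, hrij, hne⟩ := hr
      obtain ⟨n, hn⟩ := Option.ne_none_iff_exists'.1 hne
      have hz : Matrix.det (Matrix.of fun i => g i (r i)) = 0 := by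
        apply Matrix.det_eq_zero_of_not_linearIndependent_rows
        intro hli
        -- rows i and j are both multiples of the same vector
        have hi : g i (r i) = x i ^ (n : ℕ) • (c n) := by
          rw [hn]; funext k; simp [g]
        have hj : g j (r j) = x j ^ (n : ℕ) • (c n) := by
          rw [← hrij, hn]; funext k; simp [g]
        have hinj : Function.Injective ![i, j] := by
          intro a b hab
          fin_cases a <;> fin_cases b <;> simp_all
        have h2 : LinearIndependent ℝ ![g i (r i), g j (r j)] := by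
          have h3 := hli.comp ![i, j] hinj
          have e : (fun i => Matrix.of (fun i => g i (r i)) i) ∘ ![i, j] = ![g i (r i), g j (r j)] := by
            funext a
            fin_cases a <;> rfl
          rwa [e] at h3
        have h4 := LinearIndependent.pair_iff.1 h2 (x j ^ (n : ℕ)) (-(x i ^ (n : ℕ))) (by
          rw [hi, hj, smul_smul, smul_smul, ← add_smul]
          rw [show x j ^ (n : ℕ) * x i ^ (n : ℕ) + -x i ^ (n : ℕ) * x j ^ (n : ℕ) = 0 by ring, zero_smul])
        have hxi : x i ^ (n : ℕ) = 0 := by linarith [h4.2]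
        have hz := h2.ne_zero 0
        apply hz
        change g i (r i) = 0
        rw [hi, hxi, zero_smul]
      rw [hz, abs_zero, zero_mul]
      exact Finset.sum_nonneg fun σ _ => Finset.prod_nonneg fun i _ => hwt0 _ _
  calc |∑ r : ι → Option (Fin T), Matrix.det (Matrix.of fun i => g i (r i))| *
        ρ ^ (∑ n ∈ range N, n)
      ≤ (∑ r : ι → Option (Fin T), |Matrix.det (Matrix.of fun i => g i (r i))|) *
        ρ ^ (∑ n ∈ range N, n) :=
        mul_le_mul_of_nonneg_right (Finset.abs_sum_le_sum_abs _ _) (pow_nonneg hρ0.le _)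
    _ = ∑ r : ι → Option (Fin T), |Matrix.det (Matrix.of fun i => g i (r i))| *
        ρ ^ (∑ n ∈ range N, n) := Finset.sum_mul _ _ _
    _ ≤ ∑ r : ι → Option (Fin T), ∑ σ : Equiv.Perm ι, ∏ i, wt c F ρ (r i) (σ i) :=
        Finset.sum_le_sum fun r _ => hterm r
    _ = ∑ σ : Equiv.Perm ι, ∏ i, ∑ t : Option (Fin T), wt c F ρ t (σ i) := by
        rw [Finset.sum_comm]
        apply Finset.sum_congr rfl
        intro σ _
        rw [Finset.prod_univ_sum]
        simp [Fintype.piFinset_univ]
    _ ≤ ∑ σ : Equiv.Perm ι, 2 ^ N * ∏ j, F j := by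
        apply Finset.sum_le_sum
        intro σ _
        calc ∏ i, ∑ t : Option (Fin T), wt c F ρ t (σ i) ≤ ∏ i, (2 * F (σ i)) := by
              apply Finset.prod_le_prod
              · intro i _
                apply Finset.sum_nonneg
                intro t _
                cases t with
                | none => exact hF0 _
                | some n => exact mul_nonneg (abs_nonneg _) (pow_nonneg hρ0.le _)
              · intro i _
                rw [Fintype.sum_option]
                simp only [wt]
                have := hF (σ i)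
                rw [Finset.sum_range] at this
                linarith
          _ = 2 ^ N * ∏ i, F (σ i) := by
              rw [Finset.prod_mul_distrib, Finset.prod_const, Finset.card_univ, hN]
          _ = 2 ^ N * ∏ j, F j := by
              rw [Equiv.prod_comp σ F]
    _ = N.factorial * 2 ^ N * ∏ j, F j := by
        rw [Finset.sum_const, Finset.card_univ, Fintype.card_perm, nsmul_eq_mul, ← hN, mul_assoc]

end Pool.Agent.Lib.TwoLogs
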