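import Mathlib

/-!
# Zero estimate on `G_a × G_m` and choice of a nonzero minor
-/

set_option autoImplicit false

open Finset Polynomial

namespace Pool.Agent.Lib.TwoLogs

/-- If the rows `ρ i` of a (possibly tall) matrix have no common nonzero orthogonal vector, then
some square submatrix has nonzero determinant. -/
theorem exists_det_ne_zero {I J : Type*} [Fintype J] [DecidableEq J] (A : I → J → ℝ)
    (h : ∀ p : J → ℝ, (∀ i, ∑ j, p j * A i j = 0) → p = 0) :
    ∃ f : J → I, Matrix.det (Matrix.of fun j j' => A (f j) j') ≠ 0 := by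
  classical
  have hspan : Submodule.span ℝ (Set.range A) = ⊤ := by
    by_contra hne
    obtain ⟨f, hf0, hf⟩ := Submodule.exists_le_ker_of_lt_top _ (lt_top_iff_ne_top.2 hne)
    apply hf0
    have hp := h (fun j => f (Pi.single j 1)) (by
      intro i
      have hi : f (A i) = 0 := hf (Submodule.subset_span ⟨i, rfl⟩)
      have hA : A i = ∑ j, A i j • (Pi.single j (1 : ℝ) : J → ℝ) := by
        funext k
        simp [Finset.sum_apply, Pi.single_apply]
      rw [hA, map_sum] at hi
      simp only [map_smul, smul_eq_mul] at hi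
      rw [← hi]
      exact Finset.sum_congr rfl fun j _ => mul_comm _ _)
    apply LinearMap.ext
    intro v
    have hv : v = ∑ j, v j • (Pi.single j (1 : ℝ) : J → ℝ) := by
      funext k
      simp [Finset.sum_apply, Pi.single_apply]
    rw [hv, map_sum]
    simp only [map_smul, smul_eq_mul]
    simp only [LinearMap.zero_apply]
    apply Finset.sum_eq_zero
    intro j _
    have := congrFun hp j
    simp only [Pi.zero_apply] at this
    rw [this, mul_zero]
  obtain ⟨b, hb, hspanb, hli⟩ := exists_linearIndependent ℝ (Set.range A)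
  rw [hspan] at hspanb
  let B : Module.Basis b ℝ (J → ℝ) := Module.Basis.mk hli (by
    rw [Subtype.range_coe_subtype]
    simpa using hspanb.ge)
  let e : J ≃ b := (Pi.basisFun ℝ J).indexEquiv B
  have hsel : ∀ j : J, ∃ i : I, A i = (e j : J → ℝ) := fun j => hb (e j).2
  choose f hf using hsel
  refine ⟨f, ?_⟩
  have hli2 : LinearIndependent ℝ (fun j : J => A (f j)) := by
    have h3 := hli.comp e e.injective
    have h4 : (Subtype.val ∘ e : J → (J → ℝ)) = fun j : J => A (f j) := by
      funext j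
      exact (hf j).symm
    rwa [h4] at h3
  have h1 : IsUnit (Matrix.of fun j j' => A (f j) j') := by
    rw [← Matrix.linearIndependent_rows_iff_isUnit]
    exact hli2
  exact ((Matrix.isUnit_iff_isUnit_det _).1 h1).ne_zero

/-- **Zero estimate.** -/
theorem zero_estimate (K L : ℕ) (P : Fin L → ℝ[X]) (hK : ∀ l, (P l).natDegree ≤ K)
    (a v : ℝ) (ha : 1 < a) (Z : Finset ℝ) (w : ℝ → ℝ) (hw : ∀ z ∈ Z, w z ≠ 0)
    (hcard : K * L < Z.card)
    (h : ∀ z ∈ Z, ∀ m < L, ∑ l : Fin L, (P l).eval (z + m * v) * (a ^ m * w z) ^ (l : ℕ) = 0) :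
    ∀ l, P l = 0 := by
  classical
  by_contra hne
  push Not at hne
  obtain ⟨l₀, hl₀⟩ := hne
  set s : Finset (Fin L) := univ.filter (fun l => P l ≠ 0) with hs
  have hmem : ∀ l, l ∈ s ↔ P l ≠ 0 := fun l => by simp [hs]
  set n := s.card with hn
  have hnpos : 0 < n := card_pos.2 ⟨l₀, (hmem l₀).2 hl₀⟩
  have hnL : n ≤ L := by
    have := card_le_univ s
    simpa using this
  let e : Fin n ≃ s := (s.equivFin).symm
  have he : ∀ i, P (e i : Fin L) ≠ 0 := fun i => (hmem _).1 (e i).2
  -- the polynomial matrix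
  let Q : Fin n → Fin n → ℝ[X] := fun m i =>
    (P (e i : Fin L)).comp (X + C ((m : ℕ) * v)) * C ((a ^ (m : ℕ)) ^ ((e i : Fin L) : ℕ))
  let D : ℝ[X] := Matrix.det (Matrix.of Q)
  have ha0 : (0 : ℝ) < a := by linarith
  have hQne : ∀ m i, ((a ^ ((m : Fin n) : ℕ)) ^ ((e i : Fin L) : ℕ) : ℝ) ≠ 0 := fun m i => by positivity
  have hQdeg : ∀ m i, (Q m i).natDegree = (P (e i : Fin L)).natDegree := by
    intro m i
    simp only [Q]
    rw [natDegree_mul_C (hQne m i), natDegree_comp, natDegree_X_add_C, mul_one]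
  have hQlc : ∀ m i, (Q m i).leadingCoeff =
      (P (e i : Fin L)).leadingCoeff * (a ^ ((m : Fin n) : ℕ)) ^ ((e i : Fin L) : ℕ) := by
    intro m i
    simp only [Q]
    rw [leadingCoeff_mul, leadingCoeff_C, leadingCoeff_comp (by rw [natDegree_X_add_C]; norm_num),
      leadingCoeff_X_add_C, one_pow, mul_one]
  have hQ0 : ∀ m i, Q m i ≠ 0 := by
    intro m i h0
    have := hQlc m i
    rw [h0, leadingCoeff_zero] at this
    exact mul_ne_zero (leadingCoeff_ne_zero.2 (he i)) (hQne m i) this.symm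
  set d : ℕ := ∑ i, (P (e i : Fin L)).natDegree with hd
  -- coefficient of D in degree d
  have hcoeff : D.coeff d = (∏ i, (P (e i : Fin L)).leadingCoeff) *
      Matrix.det (Matrix.of fun m i : Fin n => ((a ^ (m : ℕ)) ^ ((e i : Fin L) : ℕ) : ℝ)) := by
    simp only [D]
    rw [← Matrix.det_mul_row, Matrix.det_apply, Matrix.det_apply, finsetSum_coeff]
    apply Finset.sum_congr rfl
    intro σ _
    have : ((∏ i, Q (σ i) i)).coeff d = ∏ i, ((P (e i : Fin L)).leadingCoeff *
        (a ^ ((σ i : Fin n) : ℕ)) ^ ((e i : Fin L) : ℕ)) := by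
      have h1 : (∏ i, Q (σ i) i).natDegree = d := by
        rw [natDegree_prod _ _ (fun i _ => hQ0 _ _), hd]
        exact Finset.sum_congr rfl fun i _ => hQdeg _ _
      rw [← h1, coeff_natDegree, leadingCoeff_prod]
      exact Finset.prod_congr rfl fun i _ => hQlc _ _
    simp only [Matrix.of_apply]
    rcases Int.units_eq_one_or (Equiv.Perm.sign σ) with hσ | hσ <;> simp [hσ, this]
  have hvand : Matrix.det (Matrix.of fun m i : Fin n => ((a ^ (m : ℕ)) ^ ((e i : Fin L) : ℕ) : ℝ)) ≠ 0 := by
    have h1 : (Matrix.of fun m i : Fin n => ((a ^ (m : ℕ)) ^ ((e i : Fin L) : ℕ) : ℝ)) =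
        (Matrix.vandermonde (fun i : Fin n => (a ^ ((e i : Fin L) : ℕ) : ℝ))).transpose := by
      ext m i
      simp only [Matrix.of_apply, Matrix.transpose_apply, Matrix.vandermonde_apply]
      rw [← pow_mul, ← pow_mul, mul_comm]
    rw [h1, Matrix.det_transpose, Matrix.det_vandermonde_ne_zero_iff]
    intro i j hij
    have h2 : ((e i : Fin L) : ℕ) = ((e j : Fin L) : ℕ) :=
      pow_right_injective₀ ha0 ha.ne' hij
    exact e.injective (Subtype.ext (Fin.ext h2))
  have hDne : D ≠ 0 := by
    intro h0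
    rw [h0, coeff_zero] at hcoeff
    exact mul_ne_zero (Finset.prod_ne_zero_iff.2 fun i _ => leadingCoeff_ne_zero.2 (he i)) hvand
      hcoeff.symm
  have hDdeg : D.natDegree ≤ K * L := by
    simp only [D]
    rw [Matrix.det_apply]
    apply natDegree_sum_le_of_forall_le
    intro σ _
    have h1 : (Equiv.Perm.sign σ • ∏ i, (Matrix.of Q) (σ i) i).natDegree ≤ (∏ i, Q (σ i) i).natDegree := by
      simp only [Matrix.of_apply]
      rcases Int.units_eq_one_or (Equiv.Perm.sign σ) with hσ | hσ <;> simp [hσ]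
    refine h1.trans ?_
    rw [natDegree_prod _ _ (fun i _ => hQ0 _ _)]
    calc ∑ i, (Q (σ i) i).natDegree ≤ ∑ _i : Fin n, K := Finset.sum_le_sum fun i _ => by
            rw [hQdeg]; exact hK _
      _ = n * K := by simp
      _ ≤ K * L := by rw [mul_comm]; exact Nat.mul_le_mul_left _ hnL
  apply hDne
  apply eq_zero_of_natDegree_lt_card_of_eval_eq_zero' D Z _ (lt_of_le_of_lt hDdeg hcard)
  intro z hz
  have heval : D.eval z = Matrix.det (Matrix.of fun m i : Fin n => (Q m i).eval z) := by
    simp only [D]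
    rw [← coe_evalRingHom, RingHom.map_det]
    rfl
  rw [heval, ← Matrix.exists_mulVec_eq_zero_iff]
  refine ⟨fun i => (w z) ^ ((e i : Fin L) : ℕ), ?_, ?_⟩
  · intro h0
    have := congrFun h0 ⟨0, hnpos⟩
    simp only [Pi.zero_apply] at this
    exact pow_ne_zero _ (hw z hz) this
  · funext m
    simp only [Matrix.mulVec, dotProduct, Matrix.of_apply, Pi.zero_apply]
    have h1 := h z hz m (lt_of_lt_of_le m.2 hnL)
    have h2 : ∑ l : Fin L, (P l).eval (z + (m : ℕ) * v) * (a ^ (m : ℕ) * w z) ^ (l : ℕ) =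
        ∑ l ∈ s, (P l).eval (z + (m : ℕ) * v) * (a ^ (m : ℕ) * w z) ^ (l : ℕ) := by
      symm
      apply Finset.sum_subset (Finset.subset_univ _)
      intro l _ hl
      have : P l = 0 := by
        by_contra h3
        exact hl ((hmem l).2 h3)
      rw [this]; simp
    rw [h2, ← Finset.sum_coe_sort, ← Equiv.sum_comp e] at h1
    rw [← h1]
    apply Finset.sum_congr rfl
    intro i _
    simp only [Q]
    rw [eval_mul, eval_C, eval_comp, eval_add, eval_X, eval_C, mul_pow]
    ring

end Pool.Agent.Lib.TwoLogs
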