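import Mathlib
import Pool.Agent.Lib.TwoLogs.DetBound
import Pool.Agent.Lib.TwoLogs.ZeroEst

/-!
# Two logarithms of integers: the general inequality
-/

set_option autoImplicit false

open Finset

namespace Pool.Agent.Lib.TwoLogs

/-- Taylor coefficients of `x ↦ Z^k x^k exp (l ω x)`. -/
noncomputable def cf (Z ω : ℝ) (n k l : ℕ) : ℝ :=
  if k ≤ n then Z ^ k * ((l * ω) ^ (n - k) / (n - k).factorial) else 0

lemma cf_hasSum (Z ω x : ℝ) (k l : ℕ) :
    HasSum (fun n => x ^ n * cf Z ω n k l) (Z ^ k * x ^ k * Real.exp (l * ω * x)) := by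
  have h1 : HasSum (fun n => x ^ (n + k) * cf Z ω (n + k) k l)
      (Z ^ k * x ^ k * Real.exp (l * ω * x)) := by
    have h2 := (NormedSpace.expSeries_div_hasSum_exp (𝔸 := ℝ) (l * ω * x)).mul_left (Z ^ k * x ^ k)
    rw [← Real.exp_eq_exp_ℝ] at h2
    have h5 : (fun n => x ^ (n + k) * cf Z ω (n + k) k l) =
        fun n => Z ^ k * x ^ k * ((l * ω * x) ^ n / (n.factorial : ℝ)) := by
      funext n
      simp only [cf, le_add_iff_nonneg_left, zero_le, if_true, Nat.add_sub_cancel]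
      rw [mul_pow _ x n]
      ring
    rw [h5]
    exact h2
  have h3 := (hasSum_nat_add_iff (f := fun n => x ^ n * cf Z ω n k l) k).1 h1
  have h4 : ∑ i ∈ range k, x ^ i * cf Z ω i k l = 0 := by
    apply Finset.sum_eq_zero
    intro i hi
    have : ¬ (k ≤ i) := by
      have := mem_range.1 hi
      omega
    simp [cf, this]
  rwa [h4, add_zero] at h3

lemma cf_nonneg (Z ω : ℝ) (hZ : 0 ≤ Z) (hω : 0 ≤ ω) (n k l : ℕ) : 0 ≤ cf Z ω n k l := by
  unfold cf
  split_ifs
  · positivity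
  · exact le_refl _

lemma exists_trunc {ι : Type*} [Finite ι] (Z ω : ℝ) (x : ι → ℝ) (κ l : ι → ℕ) (δ : ℝ)
    (hδ : 0 < δ) :
    ∃ T : ℕ, ∀ i j : ι, |∑ n ∈ range T, x i ^ n * cf Z ω n (κ j) (l j) -
      Z ^ (κ j) * x i ^ (κ j) * Real.exp (l j * ω * x i)| < δ := by
  have h : ∀ᶠ T : ℕ in Filter.atTop, ∀ i j : ι, |∑ n ∈ range T, x i ^ n * cf Z ω n (κ j) (l j) -
      Z ^ (κ j) * x i ^ (κ j) * Real.exp (l j * ω * x i)| < δ := by
    rw [Filter.eventually_all]
    intro i
    rw [Filter.eventually_all]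
    intro j
    have h1 := (cf_hasSum Z ω (x i) (κ j) (l j)).tendsto_sum_nat
    have h2 := (Metric.tendsto_nhds.1 h1) δ hδ
    simpa [Real.dist_eq] using h2
  exact h.exists

/-- The general inequality coming from an interpolation determinant. -/
theorem interpolation_inequality (a b u v K L R S : ℕ) (ha : 2 ≤ a) (hb : 2 ≤ b)
    (hu : 1 ≤ u) (hv : 1 ≤ v) (hK : 1 ≤ K) (hL : 1 ≤ L) (hS : 1 ≤ S)
    (hRS : (K - 1) * L < R * S)
    (hinj : ∀ i < R, ∀ j < S, ∀ i' < R, ∀ j' < S, i * v + j * u = i' * v + j' * u →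
      i = i' ∧ j = j')
    (ρ : ℝ) (hρ : 1 ≤ ρ) (η : ℝ) (hη : η = (u * Real.log a - v * Real.log b) / v)
    (hsmall : 4 * L * S * |η| * ρ ^ (K * L - 1) ≤ 1)
    (Z : ℝ) (hZ1 : 1 ≤ Z) (hZ : ((R + L - 1 : ℕ) : ℝ) * v + ((S - 1 : ℕ) : ℝ) * u ≤ Z) :
    ρ ^ (∑ n ∈ range (K * L), n) ≤ (K * L).factorial * 2 ^ (K * L) *
      ∏ q : Fin K × Fin L, (Z ^ (q.1 : ℕ) * ρ ^ (q.1 : ℕ) *
        Real.exp ((q.2 : ℕ) * (Real.log a * Z / v) * ρ)) := by
  classical
  have ha0 : (0 : ℝ) < a := by positivity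
  have hb0 : (0 : ℝ) < b := by positivity
  have ha1 : (1 : ℝ) < a := by exact_mod_cast ha
  have hv0 : (0 : ℝ) < v := by exact_mod_cast hv
  have hu0 : (0 : ℝ) < u := by exact_mod_cast hu
  have hlog : 0 < Real.log a := Real.log_pos ha1
  have hZ0 : 0 < Z := by linarith
  have hρ0 : 0 < ρ := by linarith
  set ω : ℝ := Real.log a * Z / v with hω
  have hω0 : 0 ≤ ω := by positivity
  -- the big matrix
  let zz : Fin (R + L) × Fin S → ℕ := fun p => (p.1 : ℕ) * v + (p.2 : ℕ) * u
  let ww : Fin (R + L) × Fin S → ℕ := fun p => a ^ (p.1 : ℕ) * b ^ (p.2 : ℕ)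
  let A : Fin (R + L) × Fin S → Fin K × Fin L → ℝ := fun p q =>
    (zz p : ℝ) ^ (q.1 : ℕ) * (ww p : ℝ) ^ (q.2 : ℕ)
  -- Step 1: choice of a nonzero minor
  obtain ⟨f, hf⟩ : ∃ f : Fin K × Fin L → Fin (R + L) × Fin S,
      Matrix.det (Matrix.of fun j j' => A (f j) j') ≠ 0 := by
    apply exists_det_ne_zero
    intro p hp
    let P : Fin L → Polynomial ℝ := fun l => ∑ k : Fin K, Polynomial.C (p (k, l)) * Polynomial.X ^ (k : ℕ)
    have hPeval : ∀ l x, (P l).eval x = ∑ k : Fin K, p (k, l) * x ^ (k : ℕ) := by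
      intro l x
      simp only [P]
      rw [Polynomial.eval_finsetSum]
      simp
    have hPdeg : ∀ l, (P l).natDegree ≤ K - 1 := by
      intro l
      apply Polynomial.natDegree_sum_le_of_forall_le
      intro k _
      refine (Polynomial.natDegree_C_mul_X_pow_le _ _).trans ?_
      have := k.2
      omega
    -- the box
    let box : Finset (Fin R × Fin S) := univ
    let zf : Fin R × Fin S → ℝ := fun q => ((q.1 : ℕ) * v + (q.2 : ℕ) * u : ℕ)
    have hzf : Function.Injective zf := by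
      intro q q' h
      have h1 : ((q.1 : ℕ) * v + (q.2 : ℕ) * u : ℕ) = ((q'.1 : ℕ) * v + (q'.2 : ℕ) * u : ℕ) :=
        Nat.cast_injective (R := ℝ) h
      obtain ⟨h2, h3⟩ := hinj _ q.1.2 _ q.2.2 _ q'.1.2 _ q'.2.2 h1
      exact Prod.ext (Fin.ext h2) (Fin.ext h3)
    let wf : ℝ → ℝ := fun z => if h : ∃ q, zf q = z then
      ((a ^ ((Classical.choose h).1 : ℕ) * b ^ ((Classical.choose h).2 : ℕ) : ℕ) : ℝ) else 1
    have hwf : ∀ q, wf (zf q) = ((a ^ (q.1 : ℕ) * b ^ (q.2 : ℕ) : ℕ) : ℝ) := by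
      intro q
      have h : ∃ q', zf q' = zf q := ⟨q, rfl⟩
      have h2 : Classical.choose h = q := hzf (Classical.choose_spec h)
      simp only [wf]
      rw [dif_pos h, h2]
    have hall := zero_estimate (K - 1) L P hPdeg a v ha1 (univ.image zf) wf
      (by
        intro z hz
        obtain ⟨q, -, rfl⟩ := Finset.mem_image.1 hz
        rw [hwf]
        positivity)
      (by
        rw [Finset.card_image_of_injective _ hzf, Finset.card_univ, Fintype.card_prod,
          Fintype.card_fin, Fintype.card_fin]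
        exact hRS)
      (by
        intro z hz m hm
        obtain ⟨q, -, rfl⟩ := Finset.mem_image.1 hz
        rw [hwf]
        have hq := hp (⟨(q.1 : ℕ) + m, by have := q.1.2; omega⟩, q.2)
        rw [Fintype.sum_prod_type_right] at hq
        rw [← hq]
        apply Finset.sum_congr rfl
        intro l _
        rw [hPeval, Finset.sum_mul]
        apply Finset.sum_congr rfl
        intro k _
        simp only [A, zz, ww, zf]
        push_cast
        ring)
    funext ⟨k, l⟩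
    have h1 : (P l).coeff (k : ℕ) = p (k, l) := by
      simp only [P]
      rw [Polynomial.finsetSum_coeff]
      simp only [Polynomial.coeff_C_mul, Polynomial.coeff_X_pow]
      rw [Finset.sum_eq_single k]
      · simp
      · intro k' _ hk'
        have : (k : ℕ) ≠ (k' : ℕ) := fun h => hk' (Fin.ext h.symm)
        simp [this]
      · simp
    rw [hall l] at h1
    simpa using h1.symm
  -- Step 2: the determinant is an integer
  have hint : (1 : ℝ) ≤ |Matrix.det (Matrix.of fun j j' => A (f j) j')| := by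
    let Aint : Matrix (Fin K × Fin L) (Fin K × Fin L) ℤ := Matrix.of fun j q =>
      (zz (f j) : ℤ) ^ (q.1 : ℕ) * (ww (f j) : ℤ) ^ (q.2 : ℕ)
    have h1 : Matrix.det (Matrix.of fun j j' => A (f j) j') = ((Aint.det : ℤ) : ℝ) := by
      have h5 : Int.castRingHom ℝ Aint.det = Matrix.det (Matrix.of fun j j' => A (f j) j') := by
        rw [RingHom.map_det]
        congr 1
        ext j q
        simp [Aint, A]
      rw [← h5]
      rfl
    rw [h1] at hf ⊢
    have h2 : Aint.det ≠ 0 := by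
      intro h0
      apply hf
      rw [h0]
      simp
    have h3 : 1 ≤ |Aint.det| := Int.one_le_abs h2
    exact_mod_cast h3
  -- Step 3: analytic upper bound
  let x : Fin K × Fin L → ℝ := fun j => (zz (f j) : ℝ) / Z
  have hx0 : ∀ j, 0 ≤ x j := fun j => by positivity
  have hx1 : ∀ j, x j ≤ 1 := by
    intro j
    rw [div_le_one hZ0]
    refine le_trans ?_ hZ
    simp only [zz]
    push_cast
    have h1 : (((f j).1 : ℕ) : ℝ) ≤ ((R + L - 1 : ℕ) : ℝ) := by
      have := (f j).1.2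
      exact_mod_cast (by omega : ((f j).1 : ℕ) ≤ R + L - 1)
    have h2 : (((f j).2 : ℕ) : ℝ) ≤ ((S - 1 : ℕ) : ℝ) := by
      have := (f j).2.2
      exact_mod_cast (by omega : ((f j).2 : ℕ) ≤ S - 1)
    exact add_le_add (mul_le_mul_of_nonneg_right h1 hv0.le) (mul_le_mul_of_nonneg_right h2 hu0.le)
  set N := K * L with hN
  have hcard : Fintype.card (Fin K × Fin L) = N := by simp [hN]
  have hρN : 0 < ρ ^ (N - 1) := pow_pos hρ0 _
  obtain ⟨T, hT⟩ := exists_trunc (ι := Fin K × Fin L) Z ω x (fun q => (q.1 : ℕ))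
    (fun q => (q.2 : ℕ)) (1 / (2 * ρ ^ (N - 1))) (by positivity)
  let F : Fin K × Fin L → ℝ := fun q => Z ^ (q.1 : ℕ) * ρ ^ (q.1 : ℕ) *
        Real.exp ((q.2 : ℕ) * ω * ρ)
  let c : ℕ → Fin K × Fin L → ℝ := fun n q => cf Z ω n q.1 q.2
  let E : Fin K × Fin L → Fin K × Fin L → ℝ := fun j q =>
    A (f j) q - ∑ n ∈ range T, x j ^ n * c n q
  have hmat : (Matrix.of fun j q => A (f j) q) =
      Matrix.of fun j q => ∑ n ∈ range T, x j ^ n * c n q + E j q := by
    ext j q
    simp [E]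
  have hdet := abs_det_le T c x E F ρ hρ
    (fun j => by rw [abs_of_nonneg (hx0 j)]; exact hx1 j)
    (by
      intro q
      have h1 := cf_hasSum Z ω ρ q.1 q.2
      have h2 : ∑ n ∈ range T, |c n q| * ρ ^ n = ∑ n ∈ range T, ρ ^ n * cf Z ω n q.1 q.2 := by
        apply Finset.sum_congr rfl
        intro n _
        simp only [c]
        rw [abs_of_nonneg (cf_nonneg Z ω hZ0.le hω0 _ _ _), mul_comm]
      rw [h2]
      exact sum_le_hasSum _ (fun n _ => mul_nonneg (pow_nonneg hρ0.le _)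
        (cf_nonneg Z ω hZ0.le hω0 _ _ _)) h1)
    (by
      intro j q
      rw [hcard]
      -- bound of the error
      set θ : ℝ := Real.log a / v with hθ
      have hj : (((f j).2 : ℕ) : ℝ) ≤ S := by exact_mod_cast (f j).2.2.le
      have hq : ((q.2 : ℕ) : ℝ) ≤ L := by exact_mod_cast q.2.2.le
      have hF1 : Z ^ (q.1 : ℕ) * Real.exp ((q.2 : ℕ) * ω) ≤ F q := by
        simp only [F]
        have h1 : (1 : ℝ) ≤ ρ ^ (q.1 : ℕ) := one_le_pow₀ hρ
        have h2 : Real.exp ((q.2 : ℕ) * ω) ≤ Real.exp ((q.2 : ℕ) * ω * ρ) := by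
          apply Real.exp_le_exp.2
          exact le_mul_of_one_le_right (by positivity) hρ
        calc Z ^ (q.1 : ℕ) * Real.exp ((q.2 : ℕ) * ω)
            ≤ (Z ^ (q.1 : ℕ) * ρ ^ (q.1 : ℕ)) * Real.exp ((q.2 : ℕ) * ω * ρ) := by
              apply mul_le_mul _ h2 (Real.exp_pos _).le (by positivity)
              exact le_mul_of_one_le_right (by positivity) h1
          _ = _ := rfl
      have hF2 : 1 ≤ F q := by
        refine le_trans ?_ hF1
        have h1 : (1 : ℝ) ≤ Z ^ (q.1 : ℕ) := one_le_pow₀ hZ1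
        have h2 : (1 : ℝ) ≤ Real.exp ((q.2 : ℕ) * ω) := Real.one_le_exp (by positivity)
        nlinarith
      -- exact formula for the entry
      have hentry : A (f j) q = Z ^ (q.1 : ℕ) * x j ^ (q.1 : ℕ) * Real.exp ((q.2 : ℕ) * ω * x j) *
          Real.exp (-((q.2 : ℕ) * ((f j).2 : ℕ) * η)) := by
        simp only [A]
        have h1 : (zz (f j) : ℝ) = Z * x j := by
          simp only [x]; field_simp
        have h2 : (ww (f j) : ℝ) = Real.exp (ω * x j - ((f j).2 : ℕ) * η) := by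
          simp only [ww]
          push_cast
          rw [← Real.exp_log (show (0 : ℝ) < (a : ℝ) ^ ((f j).1 : ℕ) * (b : ℝ) ^ ((f j).2 : ℕ) by positivity)]
          congr 1
          rw [Real.log_mul (by positivity) (by positivity), Real.log_pow, Real.log_pow]
          simp only [x, hω, zz, hη]
          push_cast
          field_simp
          ring
        rw [h2, h1, mul_pow, ← Real.exp_nat_mul, mul_assoc (Z ^ (q.1 : ℕ) * x j ^ (q.1 : ℕ)), ← Real.exp_add]
        congr 2
        ring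
      have hS1 : (1 : ℝ) ≤ S := by exact_mod_cast hS
      have hL1 : (1 : ℝ) ≤ L := by exact_mod_cast hL
      have hρN1 : (1 : ℝ) ≤ ρ ^ (N - 1) := one_le_pow₀ hρ
      have ht : |(-((q.2 : ℕ) * ((f j).2 : ℕ) * η) : ℝ)| ≤ L * S * |η| := by
        rw [abs_neg, abs_mul, abs_mul, Nat.abs_cast, Nat.abs_cast]
        apply mul_le_mul_of_nonneg_right _ (abs_nonneg _)
        exact mul_le_mul hq hj (by positivity) (by positivity)
      have ht1 : L * S * |η| ≤ 1 := by
        have h1 : 4 * L * S * |η| * 1 ≤ 4 * L * S * |η| * ρ ^ (N - 1) :=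
          mul_le_mul_of_nonneg_left hρN1 (by positivity)
        have h2 : 0 ≤ L * S * |η| := by positivity
        nlinarith
      have hexp1 := Real.abs_exp_sub_one_le (ht.trans ht1)
      have hE1 : |A (f j) q - Z ^ (q.1 : ℕ) * x j ^ (q.1 : ℕ) * Real.exp ((q.2 : ℕ) * ω * x j)| ≤
          F q * (2 * (L * S * |η|)) := by
        rw [hentry]
        rw [show Z ^ (q.1 : ℕ) * x j ^ (q.1 : ℕ) * Real.exp ((q.2 : ℕ) * ω * x j) *
          Real.exp (-((q.2 : ℕ) * ((f j).2 : ℕ) * η)) -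
          Z ^ (q.1 : ℕ) * x j ^ (q.1 : ℕ) * Real.exp ((q.2 : ℕ) * ω * x j) =
          (Z ^ (q.1 : ℕ) * x j ^ (q.1 : ℕ) * Real.exp ((q.2 : ℕ) * ω * x j)) *
          (Real.exp (-((q.2 : ℕ) * ((f j).2 : ℕ) * η)) - 1) by ring, abs_mul]
        apply mul_le_mul _ _ (abs_nonneg _) (by linarith)
        · rw [abs_of_nonneg (by have := hx0 j; positivity)]
          refine le_trans ?_ hF1
          have h1 : x j ^ (q.1 : ℕ) ≤ 1 := pow_le_one₀ (hx0 j) (hx1 j)
          have h2 : Real.exp ((q.2 : ℕ) * ω * x j) ≤ Real.exp ((q.2 : ℕ) * ω) := by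
            apply Real.exp_le_exp.2
            exact mul_le_of_le_one_right (by positivity) (hx1 j)
          apply mul_le_mul _ h2 (Real.exp_pos _).le (by positivity)
          exact mul_le_of_le_one_right (by positivity) h1
        · refine hexp1.trans ?_
          linarith
      have hE2 : |E j q| ≤ F q * (2 * (L * S * |η|)) + 1 / (2 * ρ ^ (N - 1)) := by
        have h1 := hT j q
        simp only [E, c]
        have h2 : A (f j) q - ∑ n ∈ range T, x j ^ n * cf Z ω n q.1 q.2 =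
          (A (f j) q - Z ^ (q.1 : ℕ) * x j ^ (q.1 : ℕ) * Real.exp ((q.2 : ℕ) * ω * x j)) -
          (∑ n ∈ range T, x j ^ n * cf Z ω n q.1 q.2 -
            Z ^ (q.1 : ℕ) * x j ^ (q.1 : ℕ) * Real.exp ((q.2 : ℕ) * ω * x j)) := by ring
        rw [h2]
        refine (abs_sub _ _).trans ?_
        exact add_le_add hE1 h1.le
      have h3 : 1 / (2 * ρ ^ (N - 1)) * ρ ^ (N - 1) = 1 / 2 := by field_simp
      calc |E j q| * ρ ^ (N - 1) ≤ (F q * (2 * (L * S * |η|)) + 1 / (2 * ρ ^ (N - 1))) * ρ ^ (N - 1) :=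
            mul_le_mul_of_nonneg_right hE2 hρN.le
        _ = F q * (4 * L * S * |η| * ρ ^ (N - 1)) / 2 + 1 / 2 := by rw [add_mul, h3]; ring
        _ ≤ F q * 1 / 2 + 1 / 2 := by
            have : F q * (4 * L * S * |η| * ρ ^ (N - 1)) ≤ F q * 1 :=
              mul_le_mul_of_nonneg_left hsmall (by linarith)
            linarith
        _ ≤ F q := by linarith)
  rw [hcard] at hdet
  rw [← hmat] at hdet
  calc ρ ^ (∑ n ∈ range N, n) = 1 * ρ ^ (∑ n ∈ range N, n) := (one_mul _).symm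
    _ ≤ |Matrix.det (Matrix.of fun j j' => A (f j) j')| * ρ ^ (∑ n ∈ range N, n) :=
        mul_le_mul_of_nonneg_right hint (pow_nonneg hρ0.le _)
    _ ≤ _ := hdet

end Pool.Agent.Lib.TwoLogs
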