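import Mathlib
import Pool.Agent.Lib.TwoLogs.Main

/-!
# Explicit form
-/

set_option autoImplicit false

open Finset

namespace Pool.Agent.Lib.TwoLogs

lemma exp_two_bounds : (7.389 : ℝ) < Real.exp 2 ∧ Real.exp 2 < 7.3891 := by
  have h1 := Real.exp_one_gt_d9
  have h2 := Real.exp_one_lt_d9
  have h3 : Real.exp 2 = Real.exp 1 * Real.exp 1 := by rw [← Real.exp_add]; norm_num
  rw [h3]
  constructor <;> nlinarith

lemma sum_fin_cast (n : ℕ) : ∑ k : Fin n, ((k : ℕ) : ℝ) = n * (n - 1) / 2 := by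
  induction n with
  | zero => simp
  | succ n ih =>
    rw [Fin.sum_univ_castSucc]
    simp only [Fin.val_castSucc, Fin.val_last]
    rw [ih]
    push_cast
    ring

lemma sum_range_cast (n : ℕ) : ((∑ k ∈ range n, k : ℕ) : ℝ) = n * (n - 1) / 2 := by
  rw [← sum_fin_cast, Finset.sum_range]
  push_cast
  rfl

/-- logarithmic form of the interpolation inequality -/
theorem interpolation_inequality_log (a b u v K L R S : ℕ) (ha : 2 ≤ a) (hb : 2 ≤ b)
    (hu : 1 ≤ u) (hv : 1 ≤ v) (hK : 1 ≤ K) (hL : 1 ≤ L) (hS : 1 ≤ S)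
    (hRS : (K - 1) * L < R * S)
    (hinj : ∀ i < R, ∀ j < S, ∀ i' < R, ∀ j' < S, i * v + j * u = i' * v + j' * u →
      i = i' ∧ j = j')
    (r : ℝ) (hr : 0 ≤ r) (η : ℝ) (hη : η = (u * Real.log a - v * Real.log b) / v)
    (hsmall : 4 * L * S * |η| * Real.exp (r * (K * L - 1)) ≤ 1)
    (Z : ℝ) (hZ1 : 1 ≤ Z) (hZ : ((R + L - 1 : ℕ) : ℝ) * v + ((S - 1 : ℕ) : ℝ) * u ≤ Z) :
    r * ((K * L : ℝ) - 1) ≤ 2 * Real.log (2 * (K * L)) + (K - 1) * (Real.log Z + r) +
      (L - 1) * (Real.log a * Z / v) * Real.exp r := by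
  have hZ0 : 0 < Z := by linarith
  have hK0 : (0 : ℝ) < K := by exact_mod_cast hK
  have hL0 : (0 : ℝ) < L := by exact_mod_cast hL
  have hKL1 : 1 ≤ K * L := Nat.one_le_iff_ne_zero.2 (by positivity)
  have hcast : ((K * L - 1 : ℕ) : ℝ) = K * L - 1 := by
    rw [Nat.cast_sub hKL1]; push_cast; ring
  have h := interpolation_inequality a b u v K L R S ha hb hu hv hK hL hS hRS hinj
    (Real.exp r) (Real.one_le_exp hr) η hη
    (by rw [← Real.exp_nat_mul, hcast, mul_comm _ r]; exact hsmall) Z hZ1 hZ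
  set N : ℕ := K * L with hN
  have hN0 : 0 < N := hKL1
  have hNR : (N : ℝ) = K * L := by rw [hN]; push_cast; ring
  -- take logarithms
  have hpos : 0 < Real.exp r ^ (∑ n ∈ range N, n) := by positivity
  have hlog := Real.log_le_log hpos h
  rw [Real.log_pow, Real.log_exp, sum_range_cast] at hlog
  have hfac : (0 : ℝ) < N.factorial := by exact_mod_cast Nat.factorial_pos N
  have hprod : ∀ q ∈ (univ : Finset (Fin K × Fin L)), (Z ^ (q.1 : ℕ) * Real.exp r ^ (q.1 : ℕ) *
        Real.exp ((q.2 : ℕ) * (Real.log a * Z / v) * Real.exp r)) ≠ 0 := by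
    intro q _
    positivity
  rw [Real.log_mul (by positivity) (Finset.prod_ne_zero_iff.2 hprod),
    Real.log_mul (by positivity) (by positivity), Real.log_pow, Real.log_prod hprod] at hlog
  have hterm : ∀ q : Fin K × Fin L, Real.log (Z ^ (q.1 : ℕ) * Real.exp r ^ (q.1 : ℕ) *
        Real.exp ((q.2 : ℕ) * (Real.log a * Z / v) * Real.exp r)) =
        ((q.1 : ℕ) : ℝ) * (Real.log Z + r) + ((q.2 : ℕ) : ℝ) * ((Real.log a * Z / v) * Real.exp r) := by
    intro q
    rw [Real.log_mul (by positivity) (by positivity), Real.log_mul (by positivity) (by positivity),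
      Real.log_pow, Real.log_pow, Real.log_exp, Real.log_exp]
    ring
  rw [Finset.sum_congr rfl (fun q _ => hterm q), Finset.sum_add_distrib, Fintype.sum_prod_type,
    Fintype.sum_prod_type_right] at hlog
  simp only [Finset.sum_const, Finset.card_univ, Fintype.card_fin, nsmul_eq_mul] at hlog
  rw [← Finset.mul_sum, ← Finset.mul_sum, ← Finset.sum_mul, ← Finset.sum_mul, sum_fin_cast,
    sum_fin_cast] at hlog
  have hfaclog : Real.log N.factorial ≤ N * Real.log N := by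
    rw [← Real.log_pow]
    apply Real.log_le_log hfac
    exact_mod_cast Nat.factorial_le_pow N
  have hN0' : (0 : ℝ) < N := by exact_mod_cast hN0
  have hlog2 : Real.log (2 * (K * L)) = Real.log 2 + Real.log N := by
    rw [← hNR, Real.log_mul (by norm_num) hN0'.ne']
  rw [hlog2, ← hNR]
  have hfin : N * (r * (N - 1)) ≤ N * (2 * (Real.log 2 + Real.log N) + (K - 1) * (Real.log Z + r) +
      (L - 1) * (Real.log a * Z / v) * Real.exp r) := by
    have h1 : (N : ℝ) * (N - 1) / 2 * r ≤ N * Real.log N + N * Real.log 2 +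
      (L * (K * (K - 1) / 2 * (Real.log Z + r)) +
        K * (L * (L - 1) / 2 * (Real.log a * Z / v * Real.exp r))) := by
      linarith
    have h2 : (L : ℝ) * (K * (K - 1) / 2 * (Real.log Z + r)) = N * ((K - 1) / 2 * (Real.log Z + r)) := by
      rw [hNR]; ring
    have h3 : (K : ℝ) * (L * (L - 1) / 2 * (Real.log a * Z / v * Real.exp r)) =
        N * ((L - 1) / 2 * (Real.log a * Z / v * Real.exp r)) := by
      rw [hNR]; ring
    rw [h2, h3] at h1
    linarith
  exact le_of_mul_le_mul_left hfin hN0'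

section aux

lemma aux_one {α L : ℝ} (hα : 1 ≤ α) (hL : 1 ≤ L) : 1 ≤ α * L := by nlinarith

lemma aux_one2 {α L : ℝ} (hα : 1 ≤ α) (hL : 1 ≤ L) : 1 ≤ α * L ^ 2 := by
  have : 1 ≤ L ^ 2 := one_le_pow₀ hL
  exact aux_one hα this

lemma aux_le {α L : ℝ} (hα : 1 ≤ α) (hL : 1 ≤ L) : α * L ≤ α * L ^ 2 := by
  have : L ≤ L ^ 2 := le_self_pow₀ hL (by norm_num)
  exact mul_le_mul_of_nonneg_left this (by linarith)

lemma aux_Kbig {α L β : ℝ} (hα : 1 ≤ α) (hL : 1 ≤ L) (hβ : 3 ≤ β) :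
    672 ≤ α * L * (219 * β + 15) := by
  have h1 := aux_one hα hL
  have h2 : (672 : ℝ) ≤ 219 * β + 15 := by linarith
  calc (672 : ℝ) = 1 * 672 := by norm_num
    _ ≤ α * L * (219 * β + 15) := mul_le_mul h1 h2 (by norm_num) (by linarith)

lemma aux_Ru {α L β : ℝ} (hα : 1 ≤ α) (hL : 1 ≤ L) (hβ : 3 ≤ β) :
    α * L * (219 * β + 15) + 1 ≤ 14 * (450 * α * L ^ 2 * (β - 1 / 1000)) := by
  have h1 := aux_one2 hα hL
  have h2 := aux_le hα hL
  have h3 : α * L * (219 * β + 15) ≤ α * L ^ 2 * (219 * β + 15) :=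
    mul_le_mul_of_nonneg_right h2 (by linarith)
  have h4 : α * L ^ 2 * (219 * β + 16) ≤ α * L ^ 2 * (6300 * (β - 1 / 1000)) :=
    mul_le_mul_of_nonneg_left (by linarith) (by linarith)
  calc α * L * (219 * β + 15) + 1 ≤ α * L ^ 2 * (219 * β + 15) + α * L ^ 2 := by linarith
    _ = α * L ^ 2 * (219 * β + 16) := by ring
    _ ≤ α * L ^ 2 * (6300 * (β - 1 / 1000)) := h4
    _ = _ := by ring

lemma aux_KL {α L β v K : ℝ} (hα : 1 ≤ α) (hL : 1 ≤ L) (hβ : 3 ≤ β)
    (hv : 450 * α * L ^ 2 ≤ v) (hK : K ≤ α * L * (219 * β + 15) + 1) :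
    2 * (K * L) ≤ v * β := by
  have h1 : K * L ≤ (α * L * (219 * β + 15) + 1) * L :=
    mul_le_mul_of_nonneg_right hK (by linarith)
  have h2 : 450 * α * L ^ 2 * β ≤ v * β := mul_le_mul_of_nonneg_right hv (by linarith)
  have h3 : α * L ^ 2 * 3 ≤ α * L ^ 2 * β := mul_le_mul_of_nonneg_left hβ (by positivity)
  have h4 : L ≤ α * L ^ 2 := by
    have h5 := aux_le hα hL
    have h6 : L ≤ α * L := le_mul_of_one_le_left (by linarith) hα
    linarith
  have h7 : 2 * ((α * L * (219 * β + 15) + 1) * L) = 438 * (α * L ^ 2 * β) + 30 * (α * L ^ 2) + 2 * L := by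
    ring
  have h8 : 450 * α * L ^ 2 * β = 450 * (α * L ^ 2 * β) := by ring
  linarith

lemma aux_X2 {α L β β' e2 K : ℝ} (hα : 1 ≤ α) (hL : 1 ≤ L) (hβ : 3 ≤ β)
    (he : 7.389 < e2) (hβ' : β - 1 / 1000 ≤ β') (hK : K ≤ α * L * (219 * β + 15) + 1) :
    K ≤ 16 * (α * L) * (2 * e2 * β') := by
  have h2 : 14.778 * (β - 1 / 1000) ≤ 2 * e2 * β' := by
    apply mul_le_mul (by linarith) hβ' (by linarith) (by linarith)
  have h4 := aux_one hα hL
  have h3 : 16 * (α * L) * (14.778 * (β - 1 / 1000)) ≤ 16 * (α * L) * (2 * e2 * β') :=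
    mul_le_mul_of_nonneg_left h2 (by positivity)
  have h5 : α * L * 3 ≤ α * L * β := mul_le_mul_of_nonneg_left hβ (by positivity)
  have h6 : 16 * (α * L) * (14.778 * (β - 1 / 1000)) = 236.448 * (α * L * β) - 0.236448 * (α * L) := by
    ring
  have h7 : α * L * (219 * β + 15) + 1 = 219 * (α * L * β) + 15 * (α * L) + 1 := by ring
  linarith

lemma aux_small {α L v e2 : ℝ} (hα : 1 ≤ α) (hL : 1 ≤ L) (he : 7.389 < e2)
    (hv : 450 * α * L ^ 2 ≤ v) : 136 * (α * L ^ 2) ≤ v * e2 := by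
  have hv0 : 0 < v := by
    have := aux_one2 hα hL
    linarith
  have h1 : 450 * α * L ^ 2 * 7 ≤ v * e2 :=
    mul_le_mul hv (by linarith) (by norm_num) hv0.le
  have h2 := aux_one2 hα hL
  have h3 : 450 * α * L ^ 2 * 7 = 3150 * (α * L ^ 2) := by ring
  linarith

lemma aux_Z {α L β e2 K : ℝ} (hα : 1 ≤ α) (hL : 1 ≤ L) (hβ : 3 ≤ β) (he : 7.389 < e2)
    (hK : K ≤ α * L * (219 * β + 15) + 1) : K ≤ α * (L * (30 * β + 3)) * e2 := by
  have h1 := aux_one hα hL
  have h4 : α * (L * (30 * β + 3)) * 7.389 ≤ α * (L * (30 * β + 3)) * e2 :=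
    mul_le_mul_of_nonneg_left he.le (by positivity)
  have h5 : α * L * 3 ≤ α * L * β := mul_le_mul_of_nonneg_left hβ (by positivity)
  have h6 : α * (L * (30 * β + 3)) * 7.389 = 221.67 * (α * L * β) + 22.167 * (α * L) := by ring
  have h7 : α * L * (219 * β + 15) + 1 = 219 * (α * L * β) + 15 * (α * L) + 1 := by ring
  linarith

lemma aux_RS {α L β β' e2 K : ℝ} (hα : 1 ≤ α) (hL : 1 ≤ L)
    (he0 : 0 < e2) (he : e2 < 7.3891) (hβ'0 : 0 < β') (hβ'1 : β' ≤ β + 1 / 1000)
    (hK0 : 0 < K) (hK : α * L * (219 * β + 15) ≤ K) :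
    K * L ≤ (K / (2 * e2 * α) - L) * (K / (2 * e2 * β')) := by
  have hα0 : 0 < α := by linarith
  have h3 : (K / (2 * e2 * α) - L) * (K / (2 * e2 * β')) =
      K * ((K - 2 * e2 * α * L) / (4 * e2 ^ 2 * α * β')) := by
    field_simp
    ring
  rw [h3]
  apply mul_le_mul_of_nonneg_left _ hK0.le
  rw [le_div_iff₀ (by positivity)]
  have h4 : e2 ^ 2 ≤ 54.5988 := by
    calc e2 ^ 2 ≤ 7.3891 ^ 2 := pow_le_pow_left₀ he0.le he.le 2
      _ ≤ 54.5988 := by norm_num
  have h5 : L * (4 * e2 ^ 2 * α * β') + 2 * e2 * α * L = α * L * (4 * e2 ^ 2 * β' + 2 * e2) := by ring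
  have h6 : 4 * e2 ^ 2 * β' + 2 * e2 ≤ 219 * β + 15 := by
    have h7 : 4 * e2 ^ 2 * β' ≤ 218.3952 * (β + 1 / 1000) := by
      apply mul_le_mul _ hβ'1 hβ'0.le (by norm_num)
      linarith
    linarith
  have h8 : α * L * (4 * e2 ^ 2 * β' + 2 * e2) ≤ α * L * (219 * β + 15) :=
    mul_le_mul_of_nonneg_left h6 (by positivity)
  linarith

lemma aux_X1 {α L β e2 K : ℝ} (hα : 1 ≤ α) (hL : 1 ≤ L) (hβ : 3 ≤ β)
    (he0 : 0 < e2) (he : e2 < 7.3891) (hK : α * L * (219 * β + 15) ≤ K) :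
    L ≤ K / (2 * e2 * α) := by
  have hα0 : 0 < α := by linarith
  rw [le_div_iff₀ (by positivity)]
  refine le_trans ?_ hK
  have h1 : 2 * e2 ≤ 219 * β + 15 := by linarith
  calc L * (2 * e2 * α) = α * L * (2 * e2) := by ring
    _ ≤ α * L * (219 * β + 15) := mul_le_mul_of_nonneg_left h1 (by positivity)

lemma aux_logx {x : ℝ} (hx : 0 < x) : Real.log x ≤ x / 4 + 0.39 := by
  have hlog2 := Real.log_two_lt_d9
  have h5 := Real.log_le_sub_one_of_pos (show (0 : ℝ) < x / 4 by positivity)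
  rw [Real.log_div hx.ne' (by norm_num)] at h5
  have h6 : Real.log 4 = 2 * Real.log 2 := by
    rw [show (4 : ℝ) = 2 ^ 2 by norm_num, Real.log_pow]; norm_num
  rw [h6] at h5
  linarith

lemma aux_log3 {K L : ℝ} (hK : 0 < K) (hL : 0 < L) :
    Real.log (2 * (K * L)) ≤ 0.7 + (K / 4 + 0.39) + (L / 4 + 0.39) := by
  rw [Real.log_mul (by norm_num) (by positivity), Real.log_mul (by positivity) (by positivity)]
  have hlog2 := Real.log_two_lt_d9
  have h1 := aux_logx hK
  have h2 := aux_logx hL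
  linarith

lemma aux_eta {v β : ℝ} (hv : 450 ≤ v) (hβ : 3 ≤ β) :
    2 * Real.exp (-(v * β)) / v ≤ 1 / 1000 := by
  have hv0 : 0 < v := by linarith
  have h0 : 1350 ≤ v * β := by
    calc (1350 : ℝ) = 450 * 3 := by norm_num
      _ ≤ v * β := mul_le_mul hv hβ (by norm_num) hv0.le
  have h2 : Real.exp (-(v * β)) ≤ 1 / (v * β) := by
    rw [Real.exp_neg, ← one_div]
    apply one_div_le_one_div_of_le (by linarith)
    linarith [Real.add_one_le_exp (v * β)]
  have h3 : 1 / (v * β) ≤ 1 / 1350 := one_div_le_one_div_of_le (by norm_num) h0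
  rw [div_le_iff₀ hv0]
  linarith

end aux

/-- **Explicit lower bound for a linear form in two logarithms of integers.** -/
theorem two_logs_explicit (a b u v L : ℕ) (ha : 3 ≤ a) (hb : 21 ≤ b) (hu : 1 ≤ u) (hv : 1 ≤ v)
    (hcop : Nat.Coprime u v) (hL : 1 ≤ L) (hv2 : 450 * Real.log a * L ^ 2 ≤ v)
    (hexp : v * L * (30 * Real.log b + 3) ≤ Real.exp (L - 2)) :
    2 * Real.exp (-(v * Real.log b)) < |u * Real.log a - v * Real.log b| := by
  by_contra hcon
  push Not at hcon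
  obtain ⟨he1, he2⟩ := exp_two_bounds
  set e2 : ℝ := Real.exp 2 with he2def
  set α : ℝ := Real.log a with hα
  set β : ℝ := Real.log b with hβ
  have hL1 : (1 : ℝ) ≤ L := by exact_mod_cast hL
  have hv0 : (0 : ℝ) < v := by exact_mod_cast hv
  have hu0 : (0 : ℝ) < u := by exact_mod_cast hu
  have hα1 : 1 ≤ α := by
    rw [hα, Real.le_log_iff_exp_le (by positivity)]
    have : (3 : ℝ) ≤ a := by exact_mod_cast ha
    linarith [Real.exp_one_lt_d9]
  have hβ3 : 3 ≤ β := by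
    rw [hβ, Real.le_log_iff_exp_le (by positivity)]
    have h1 : (21 : ℝ) ≤ b := by exact_mod_cast hb
    have h2 : Real.exp 3 = e2 * Real.exp 1 := by rw [he2def, ← Real.exp_add]; norm_num
    have h3 := Real.exp_one_lt_d9
    have h4 := Real.exp_pos 1
    rw [h2]
    calc e2 * Real.exp 1 ≤ 7.3891 * 2.72 := mul_le_mul he2.le (by linarith) h4.le (by norm_num)
      _ ≤ 21 := by norm_num
      _ ≤ b := h1
  have hαL1 := aux_one hα1 hL1
  have hαL2 := aux_one2 hα1 hL1
  have hv450 : (450 : ℝ) ≤ v := by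
    have h1 : 450 * α * (L : ℝ) ^ 2 = 450 * (α * (L : ℝ) ^ 2) := by ring
    linarith
  -- η
  set η : ℝ := (u * α - v * β) / v with hη
  have hηabs : |η| ≤ 2 * Real.exp (-(v * β)) / v := by
    rw [hη, abs_div, Nat.abs_cast]
    exact div_le_div_of_nonneg_right hcon hv0.le
  have hvβ : 0 < v * β := by positivity
  have hηsmall : |η| ≤ 1 / 1000 := hηabs.trans (aux_eta hv450 hβ3)
  set β' : ℝ := β + η with hβ'
  have hη1 := abs_le.1 hηsmall
  have hβ'1 : β' ≤ β + 1 / 1000 := by linarith [hη1.2]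
  have hβ'2 : β - 1 / 1000 ≤ β' := by linarith [hη1.1]
  have hβ'0 : 0 < β' := by linarith
  have huα : u * α / v = β' := by
    rw [hβ', hη]; field_simp; ring
  have huα' : u * α = v * β' := by
    rw [← huα]; field_simp
  have he2pos : 0 < e2 := by linarith
  have hα0 : 0 < α := by linarith
  -- K
  set K : ℕ := ⌈α * L * (219 * β + 15)⌉₊ with hK
  have hK1 : α * L * (219 * β + 15) ≤ K := Nat.le_ceil _
  have hK2 : K < α * L * (219 * β + 15) + 1 := Nat.ceil_lt_add_one (by positivity)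
  have hKbig : (672 : ℝ) ≤ K := (aux_Kbig hα1 hL1 hβ3).trans hK1
  have hK0 : (0 : ℝ) < K := by linarith
  have hKpos : 1 ≤ K := by exact_mod_cast (by linarith : (1 : ℝ) ≤ K)
  -- R, S
  set X1 : ℝ := K / (2 * e2 * α) with hX1
  set X2 : ℝ := K / (2 * e2 * β') with hX2
  have hX1L2 : (L : ℝ) ≤ X1 := aux_X1 hα1 hL1 hβ3 he2pos he2 hK1
  have hX1nn : 0 ≤ X1 := by positivity
  have hX2nn : 0 ≤ X2 := by positivity
  set fR : ℕ := ⌊X1⌋₊ with hfR
  set fS : ℕ := ⌊X2⌋₊ with hfS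
  have hfR1 : (fR : ℝ) ≤ X1 := Nat.floor_le hX1nn
  have hfR2 : X1 < fR + 1 := Nat.lt_floor_add_one _
  have hfS1 : (fS : ℝ) ≤ X2 := Nat.floor_le hX2nn
  have hfS2 : X2 < fS + 1 := Nat.lt_floor_add_one _
  have hLfR : L ≤ fR := Nat.le_floor hX1L2
  have hRL : fR + 1 - L + L - 1 = fR := by omega
  have hRcast : ((fR + 1 - L : ℕ) : ℝ) = fR + 1 - L := by
    rw [Nat.cast_sub (by omega)]; push_cast; ring
  -- the product condition
  have hRS : (K - 1) * L < (fR + 1 - L) * (fS + 1) := by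
    have h1 : (X1 - L) * X2 < ((fR + 1 - L : ℕ) : ℝ) * ((fS + 1 : ℕ) : ℝ) := by
      rw [hRcast]
      push_cast
      have hX2pos : 0 < X2 := by positivity
      have h2 : X1 - L < fR + 1 - L := by linarith
      have h3 : 0 ≤ X1 - L := by linarith
      have h4 : (X1 - L) * X2 ≤ (X1 - L) * (fS + 1) := mul_le_mul_of_nonneg_left hfS2.le h3
      have h5 : (X1 - L) * (fS + 1) < (fR + 1 - L) * (fS + 1) :=
        mul_lt_mul_of_pos_right h2 (by positivity)
      linarith
    have h2 : (K : ℝ) * L ≤ (X1 - L) * X2 := aux_RS hα1 hL1 he2pos he2 hβ'0 hβ'1 hK0 hK1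
    have h3 : (((K - 1) * L : ℕ) : ℝ) < (((fR + 1 - L) * (fS + 1) : ℕ) : ℝ) := by
      have h4 : (((K - 1) * L : ℕ) : ℝ) ≤ K * L := by
        push_cast
        rw [Nat.cast_sub hKpos]
        push_cast
        have h9 : ((K : ℝ) - 1) * L = K * L - L := by ring
        linarith
      rw [Nat.cast_mul (fR + 1 - L)]
      linarith
    exact_mod_cast h3
  -- R ≤ u
  have hRu : fR + 1 - L ≤ u := by
    have h1 : ((fR + 1 - L : ℕ) : ℝ) ≤ X1 := by rw [hRcast]; linarith
    have h2 : X1 ≤ u := by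
      rw [hX1, div_le_iff₀ (by positivity)]
      have h3 : u * (2 * e2 * α) = 2 * e2 * (v * β') := by rw [← huα']; ring
      rw [h3]
      have h4 : 450 * α * L ^ 2 * (β - 1 / 1000) ≤ v * β' := by
        apply mul_le_mul hv2 hβ'2 (by linarith) hv0.le
      have h5 : 0 ≤ 450 * α * L ^ 2 * (β - 1 / 1000) := by
        have : 0 ≤ β - 1 / 1000 := by linarith
        positivity
      have h6 : 14 * (450 * α * L ^ 2 * (β - 1 / 1000)) ≤ 2 * e2 * (v * β') := by
        have : (14 : ℝ) ≤ 2 * e2 := by linarith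
        apply mul_le_mul this h4 h5 (by positivity)
      have h7 := aux_Ru hα1 hL1 hβ3
      linarith
    exact_mod_cast h1.trans h2
  have hinj : ∀ i < fR + 1 - L, ∀ j < fS + 1, ∀ i' < fR + 1 - L, ∀ j' < fS + 1,
      i * v + j * u = i' * v + j' * u → i = i' ∧ j = j' := by
    intro i hi j _ i' hi' j' _ heq
    have h1 : i * v ≡ i' * v [MOD u] := by
      have h2 : (i * v + j * u) ≡ (i' * v + j' * u) [MOD u] := by rw [heq]
      have h3 : i * v ≡ i * v + j * u [MOD u] := by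
        simp [Nat.ModEq]
      have h4 : i' * v ≡ i' * v + j' * u [MOD u] := by
        simp [Nat.ModEq]
      exact h3.trans (h2.trans h4.symm)
    have h2 : i ≡ i' [MOD u] := Nat.ModEq.cancel_right_of_coprime (by simpa using hcop) h1
    have h3 : i = i' := Nat.ModEq.eq_of_lt_of_lt h2 (by omega) (by omega)
    refine ⟨h3, ?_⟩
    rw [h3] at heq
    have h4 : j * u = j' * u := by omega
    exact Nat.eq_of_mul_eq_mul_right (by omega) h4
  -- smallness
  have hKL : 2 * (K * L : ℝ) ≤ v * β := aux_KL hα1 hL1 hβ3 hv2 hK2.le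
  have hSbound : ((fS + 1 : ℕ) : ℝ) ≤ 17 * (α * L) := by
    push_cast
    have h1 : X2 ≤ 16 * (α * L) := by
      rw [hX2, div_le_iff₀ (by positivity)]
      exact aux_X2 hα1 hL1 hβ3 he1 hβ'2 hK2.le
    linarith
  have hsmall : 4 * L * ((fS + 1 : ℕ) : ℝ) * |η| * Real.exp (2 * (K * L - 1)) ≤ 1 := by
    have h1 : |η| * Real.exp (2 * (K * L - 1)) ≤ 2 / v * (1 / e2) := by
      calc |η| * Real.exp (2 * (K * L - 1)) ≤
          (2 * Real.exp (-(v * β)) / v) * Real.exp (2 * (K * L - 1)) :=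
            mul_le_mul_of_nonneg_right hηabs (Real.exp_pos _).le
        _ = 2 / v * Real.exp (2 * (K * L - 1) - v * β) := by
            rw [Real.exp_sub, Real.exp_neg]; field_simp
        _ ≤ 2 / v * Real.exp (-2) := by
            apply mul_le_mul_of_nonneg_left _ (by positivity)
            apply Real.exp_le_exp.2
            linarith
        _ = 2 / v * (1 / e2) := by rw [Real.exp_neg, he2def, one_div]
    have h2 : 4 * L * ((fS + 1 : ℕ) : ℝ) ≤ 4 * L * (17 * (α * L)) :=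
      mul_le_mul_of_nonneg_left hSbound (by positivity)
    calc 4 * L * ((fS + 1 : ℕ) : ℝ) * |η| * Real.exp (2 * (K * L - 1))
        = (4 * L * ((fS + 1 : ℕ) : ℝ)) * (|η| * Real.exp (2 * (K * L - 1))) := by ring
      _ ≤ (4 * L * (17 * (α * L))) * (2 / v * (1 / e2)) := by
          apply mul_le_mul h2 h1 (by positivity) (by positivity)
      _ = 136 * (α * L ^ 2) / (v * e2) := by field_simp; ring
      _ ≤ 1 := by
          rw [div_le_one (by positivity)]
          exact aux_small hα1 hL1 he1 hv2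
  -- Z
  set Z : ℝ := (fR : ℝ) * v + (fS : ℝ) * u with hZdef
  have hfRpos : (1 : ℝ) ≤ fR := by
    have : 1 ≤ fR := le_trans hL hLfR
    exact_mod_cast this
  have hZ1 : 1 ≤ Z := by
    have h1 : 0 ≤ (fS : ℝ) * u := by positivity
    have h2 : 1 * 1 ≤ (fR : ℝ) * v := mul_le_mul hfRpos (by linarith) (by norm_num) (by linarith)
    linarith
  have hZ0 : 0 < Z := by linarith
  have hαZ : α * Z / v ≤ K / e2 := by
    have h1 : α * Z / v = fR * α + fS * β' := by
      rw [← huα, hZdef]; field_simp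
    rw [h1]
    have h2 : fR * α ≤ K / (2 * e2) := by
      have : (fR : ℝ) * α ≤ X1 * α := mul_le_mul_of_nonneg_right hfR1 hα0.le
      refine this.trans (le_of_eq ?_)
      rw [hX1]; field_simp
    have h3 : fS * β' ≤ K / (2 * e2) := by
      have : (fS : ℝ) * β' ≤ X2 * β' := mul_le_mul_of_nonneg_right hfS1 hβ'0.le
      refine this.trans (le_of_eq ?_)
      rw [hX2]; field_simp
    have h4 : K / e2 = K / (2 * e2) + K / (2 * e2) := by field_simp; ring
    linarith
  have hlogZ : Real.log Z ≤ L - 2 := by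
    rw [Real.log_le_iff_le_exp hZ0]
    refine le_trans ?_ hexp
    have h1 : Z ≤ K / e2 * v / α := by
      rw [le_div_iff₀ hα0]
      have h2 : α * Z ≤ K / e2 * v := by
        rwa [div_le_iff₀ hv0] at hαZ
      linarith
    refine h1.trans ?_
    rw [div_le_iff₀ hα0]
    have h3 : (K : ℝ) / e2 ≤ α * (L * (30 * β + 3)) := by
      rw [div_le_iff₀ he2pos]
      exact aux_Z hα1 hL1 hβ3 he1 hK2.le
    calc (K : ℝ) / e2 * v ≤ α * (L * (30 * β + 3)) * v := mul_le_mul_of_nonneg_right h3 hv0.le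
      _ = v * L * (30 * β + 3) * α := by ring
  have hmain := interpolation_inequality_log a b u v K L (fR + 1 - L) (fS + 1) (by omega) (by omega)
    hu hv hKpos hL (by omega) hRS hinj 2 (by norm_num) η rfl hsmall Z hZ1
    (by rw [hRL, Nat.add_sub_cancel])
  have h1 : ((K : ℝ) - 1) * (Real.log Z + 2) ≤ (K - 1) * L := by
    apply mul_le_mul_of_nonneg_left _ (by linarith)
    linarith
  have h2 : ((L : ℝ) - 1) * (Real.log a * Z / v) * Real.exp 2 ≤ (L - 1) * K := by
    rw [mul_assoc]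
    apply mul_le_mul_of_nonneg_left _ (by linarith)
    have := mul_le_mul_of_nonneg_right hαZ he2pos.le
    rwa [div_mul_cancel₀ _ he2pos.ne'] at this
  have h3 : Real.log (2 * (K * L)) ≤ 0.7 + (K / 4 + 0.39) + (L / 4 + 0.39) :=
    aux_log3 hK0 (by linarith)
  have h4 : ((K : ℝ) - 1) * L = K * L - L := by ring
  have h5 : ((L : ℝ) - 1) * K = K * L - K := by ring
  linarith

end Pool.Agent.Lib.TwoLogs
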